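import Pool.Agent.Helper32.KD2.St.A1
import Pool.Agent.Helper32.KD2.St.B1
import Pool.Agent.Helper32.KD2.St.B2
import Pool.Agent.Helper32.KD2.St.C2
import Pool.Agent.Helper32.KD2.St.C3
import Pool.Agent.Helper32.KD2.St.C4
import Pool.Agent.Helper32.KD2.St.C5
import Pool.Agent.Helper32.KD2.St.D3
import Pool.Agent.Helper32.KD2.St.E1
import Pool.Agent.Helper32.KD2.St.E2
import Pool.Agent.Helper32.KD2.St.F1
import Pool.Agent.Helper32.KD2.St.F2
import Pool.Agent.Helper32.KD2.St.F3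
import Pool.Agent.Helper32.KD2.St.G1
import Pool.Agent.Helper32.KD2.St.G2

/-! KD Part II: assembly, first half -/

namespace KD.II

open Finset MeasureTheory

theorem loc_of_super {d : ℕ} {s η : ℝ} {a : ℝ → Vd d → Vd d → Vd d → ℝ}
    {f : ℝ → Vd d → Vd d → ℝ} {D : Set (ℝ × Vd d × Vd d)} (h : Super s η a f D)
    (hQ : Q1 d ⊆ D) : ∃ (G : ℝ → Vd d → Vd d → ℝ) (Cf : ℝ), Loc s η a f G Cf := by
  obtain ⟨ft, fx, fv, fvv, hR, heq⟩ := h.sup
  obtain ⟨A, hA⟩ := h.bdd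
  obtain ⟨C1, hC1, h1⟩ := reg_lip hR hQ
  obtain ⟨C2, hC2, h2⟩ := reg_sd hR hQ
  refine ⟨fun t x v => ft t x v + fx t x v v, C1 + C2 + |A|, ?_, h.meas, ?_, ?_, ?_, ?_, ?_, ?_⟩
  · positivity
  · intro t x v
    have := hA t x v
    have := le_abs_self A
    linarith
  · intro t x t' x' v ht ht'
    refine (h1 t x t' x' v ht ht').trans (mul_le_mul_of_nonneg_right ?_ (by positivity))
    have := abs_nonneg A
    linarith
  · exact reg_tr hR hQ
  · intro t x v w w' ht ht' hx hv hw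
    refine (h2 t x v w w' ht ht' hx hv hw).trans ?_
    rw [mul_assoc, mul_assoc]
    refine mul_le_mul_of_nonneg_right ?_ (by positivity)
    have := abs_nonneg A
    linarith
  · exact reg_uc hR hQ
  · intro t x v hp
    have := heq (t, x, v) (hQ hp)
    simpa using this

theorem adm_of_kern {d : ℕ} {lam Lam M0 : ℝ} {a : ℝ → Vd d → Vd d → Vd d → ℝ}
    (h : Kern lam Lam M0 a) (t : ℝ) (x v : Vd d) : Adm lam Lam (a t x v) :=
  ⟨h.meas t x v, h.even t x v, h.lo t x v, h.hi t x v⟩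

theorem coef_cof {d : ℕ} (hd : 1 ≤ d) {s lam Lam M0 : ℝ} (hs : 0 < s)
    (hLam : lam ≤ Lam) (hM0 : 0 ≤ M0) {K N : ℕ} [NeZero N] {c0 C0 : ℝ}
    (S : JSys d N (K + 3) c0 C0 (Th d (K + 3))) (hneg : ∀ θ, (S.neg θ).1 = -θ.1)
    {a : ℝ → Vd d → Vd d → Vd d → ℝ} (ha : Kern lam Lam M0 a) (κ : ℝ) (n : ℕ) :
    S.Coef lam Lam M0 (cof (N := N) s lam κ (hh K) (K + 3) a n) := by
  refine ⟨?_, ?_, ?_, ?_⟩
  · intro j θ z
    unfold cof
    split_ifs
    · exact acf_lo hd hs (adm_of_kern ha _ _ _) _ θ.2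
    · exact le_rfl
  · intro j θ z
    unfold cof
    split_ifs
    · exact acf_hi hd hs (adm_of_kern ha _ _ _) _ θ.2
    · exact hLam
  · intro j θ z
    unfold cof
    rw [hneg]
    split_ifs
    · exact acf_neg (adm_of_kern ha _ _ _) _ _
    · rfl
  · intro θ z
    unfold cof
    by_cases hz : z ∈ win κ (hh K)
    · simp only [hz, if_true]
      exact acf_bv hd hs (adm_of_kern ha _ _ _) (hh_pos K) (by rw [hh_jump]; norm_num)
        (ha.bv _ _ _) θ.2
    · simp only [hz, if_false, sub_self, abs_zero, Finset.sum_const_zero]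
      exact hM0

theorem px_zero {d N : ℕ} [NeZero N] (κ h : ℝ) : px κ h (0 : GG d N) = 0 := by
  unfold px rl
  ext i
  simp

theorem pv_zero {d N : ℕ} [NeZero N] (h : ℝ) : pv h (0 : GG d N) = 0 := by
  unfold pv rl
  ext i
  simp

theorem zero_mem_win {d N : ℕ} [NeZero N] (κ h : ℝ) : (0 : GG d N) ∈ win κ h := by
  show _ ∧ _
  rw [px_zero, pv_zero]
  simp

theorem smp_zero {d N : ℕ} [NeZero N] (κ h : ℝ) (f : ℝ → Vd d → Vd d → ℝ) :
    smp κ h f 0 (0 : GG d N) = f 0 0 0 := by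
  unfold smp
  rw [px_zero, pv_zero]
  simp

theorem Psi_zero {d N : ℕ} [NeZero N] (κ h : ℝ) : Psi κ h (0 : GG d N) = 0 := by
  unfold Psi
  rw [px_zero, pv_zero]
  simp

theorem Psi_nonneg {d N : ℕ} (κ h : ℝ) (z : GG d N) : 0 ≤ Psi κ h z := by
  unfold Psi; positivity

/-- relations between the scales -/
theorem tim_eq {s ε : ℝ} (K : ℕ) : ε / tim s K = kk s ε K * (2 : ℝ) ^ (16 * s) := by
  unfold kk hh tim
  rw [show ((1 / 2 : ℝ) ^ (K + 8)) = (2 : ℝ) ^ (-((K : ℝ) + 8)) by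
    rw [Real.rpow_neg two_pos.le]
    rw [show ((K : ℝ) + 8) = ((K + 8 : ℕ) : ℝ) by push_cast; ring, Real.rpow_natCast, one_div,
      inv_pow]]
  rw [← Real.rpow_mul two_pos.le, mul_assoc ε, ← Real.rpow_add two_pos, div_eq_mul_inv,
    ← Real.rpow_neg two_pos.le]
  congr 2
  ring

theorem two_pow_hh (K : ℕ) : (2 : ℝ) ^ K = 1 / (256 * hh K) := by
  unfold hh
  rw [pow_add, div_pow, one_pow]
  field_simp
  norm_num

theorem Rad_eq {s M ε : ℝ} (hε : 0 < ε) (K : ℕ) :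
    Rad s M ε K = M / (256 * (2 : ℝ) ^ (16 * s) * (kk s ε K * hh K)) := by
  have h1 := tim_eq (s := s) (ε := ε) K
  have ht : 0 < tim s K := Real.rpow_pos_of_pos two_pos _
  have hk := kk_pos (s := s) hε K
  have hhp := hh_pos K
  have h2 : (0:ℝ) < 2 ^ (16 * s) := Real.rpow_pos_of_pos two_pos _
  unfold Rad
  rw [two_pow_hh K]
  have h3 : tim s K = ε / (kk s ε K * (2 : ℝ) ^ (16 * s)) := by
    rw [← h1]
    field_simp
  rw [h3]
  field_simp

end KD.II
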