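import Pool.Agent.Helper32.KD2.Asm1

/-! KD Part II: assembly, the chain part for fixed parameters -/

namespace KD.II

open Finset MeasureTheory

open Classical in
/-- The conclusion of II.4-II.5 for one fixed set of parameters: if the averaged number of bad
points is small, `f(0)` is bounded below. -/
theorem chain_part {d : ℕ} {s lam Lam M0 C0 c0 κ h ε k η' : ℝ} {N J : ℕ} [NeZero N]
    (hlam : 0 ≤ lam) (hε : 0 ≤ ε) (S : JSys d N J c0 C0 (Th d J))
    (hr : ε * Lam * rate S s ≤ 1) (a : ℕ → ℕ → Th d J → GG d N → ℝ)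
    (ha : ∀ n, S.Coef lam Lam M0 (a n)) (f : ℝ → Vd d → Vd d → ℝ) (hnn : ∀ t x v, 0 ≤ f t x v)
    (hk : 0 ≤ k) (hη' : 0 ≤ η') (hκ : 0 < κ) (T : ℕ) (hT : 0 < T) (t0 : ℝ) (hTt : T * κ ≤ t0)
    (hkt : t0 * k ≤ 1 / 16)
    (hgen : ∀ n < T, ∀ z ∈ win κ h, gen S s ε (a n) (smp κ h f (n + 1)) z ≤
      (1 + κ * k) * smp κ h f n z + κ * η')
    (C : ℝ) (hC : 0 ≤ C) (hCt : t0 * C ≤ 1 / 16)
    (hPsi : ∀ n, ∀ z ∈ win κ h, gen S s ε (a n) (Psi κ h) z ≤ Psi κ h z + κ * C)
    (e : ℝ) (he1 : e ≤ 1)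
    (B : ℕ → Finset (GG d N)) (hB : ∀ n z, z ∈ win κ h → smp κ h f n z < 1 - e → z ∈ B n)
    (hsum : ∑ n ∈ range T, ∑ z ∈ B n, S.chain s ε a n z ≤ T * (1 / 16)) :
    (1 - e) * (7 / 8) ≤ Real.exp (1 / 16) * (f 0 0 0 + t0 * η') := by
  obtain ⟨n, hn, hn1⟩ : ∃ n ∈ range T, ∑ z ∈ B n, S.chain s ε a n z ≤ 1 / 16 := by
    refine Finset.exists_le_of_sum_le (by simpa using hT.ne') ?_
    simpa using hsum
  have hnT : n < T := Finset.mem_range.1 hn
  have hnκ : (n : ℝ) * κ ≤ t0 := by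
    refine le_trans (mul_le_mul_of_nonneg_right ?_ hκ.le) hTt
    exact_mod_cast hnT.le
  have hn0 : (0:ℝ) ≤ n * κ := by positivity
  have ht0 : 0 ≤ t0 := hn0.trans hnκ
  have h1 := kil_super S hlam hε hr ha (win κ h) (smp κ h f) (fun n z => hnn _ _ _) (κ * k) (κ * η')
    (by positivity) (by positivity) T hgen n hnT.le
  rw [smp_zero] at h1
  have h2 := kil_exit S hlam hε hr ha (win κ h) (zero_mem_win κ h) (Psi κ h) (Psi_nonneg κ h)
    (Psi_zero κ h) (fun z hz => Psi_off z hz) (κ * C) (by positivity) hPsi n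
  -- lower bound for the weighted sum
  have h3 : (1 - e) * (inW (win κ h) (kil S s ε a (win κ h) n) (fun _ => 1) -
      ∑ z ∈ B n, S.chain s ε a n z) ≤ inW (win κ h) (kil S s ε a (win κ h) n) (smp κ h f n) := by
    unfold inW
    have hsplit : ∑ z ∈ B n, S.chain s ε a n z = ∑ z, if z ∈ B n then S.chain s ε a n z else 0 := by
      rw [Finset.sum_ite_mem, Finset.univ_inter]
    rw [hsplit, ← Finset.sum_sub_distrib, Finset.mul_sum]
    refine Finset.sum_le_sum (fun z _ => ?_)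
    have k0 := kil_nonneg S hlam hε hr ha (win κ h) n z
    have k1 := kil_le_chain S hlam hε hr ha (win κ h) n z
    have hf : 0 ≤ smp κ h f n z := hnn _ _ _
    by_cases hz : z ∈ win κ h
    · simp only [hz, if_true]
      by_cases hzB : z ∈ B n
      · simp only [hzB, if_true]
        have : (1 - e) * (kil S s ε a (win κ h) n z * 1 - S.chain s ε a n z) ≤ 0 := by
          apply mul_nonpos_of_nonneg_of_nonpos (by linarith)
          linarith
        have h5 : 0 ≤ kil S s ε a (win κ h) n z * smp κ h f n z := by positivity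
        linarith
      · simp only [hzB, if_false]
        have : 1 - e ≤ smp κ h f n z := by
          by_contra hc
          exact hzB (hB n z hz (not_le.1 hc))
        nlinarith
    · simp only [hz, if_false]
      by_cases hzB : z ∈ B n
      · simp only [hzB, if_true]
        have : 0 ≤ S.chain s ε a n z := k0.trans k1
        nlinarith
      · simp only [hzB, if_false]
        simp
  have h4 : (1 - e) * (7 / 8) ≤ (1 - e) * (inW (win κ h) (kil S s ε a (win κ h) n) (fun _ => 1) -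
      ∑ z ∈ B n, S.chain s ε a n z) := by
    refine mul_le_mul_of_nonneg_left ?_ (by linarith)
    have : (n : ℝ) * (κ * C) ≤ 1 / 16 := by
      calc (n : ℝ) * (κ * C) = (n * κ) * C := by ring
        _ ≤ t0 * C := mul_le_mul_of_nonneg_right hnκ hC
        _ ≤ _ := hCt
    linarith
  have h5 : (1 + κ * k) ^ n ≤ Real.exp (1 / 16) := by
    have h6 : (1 + κ * k) ^ n ≤ Real.exp (κ * k) ^ n := by
      refine pow_le_pow_left₀ (by positivity) ?_ n
      linarith [Real.add_one_le_exp (κ * k)]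
    refine h6.trans ?_
    rw [← Real.exp_nat_mul]
    refine Real.exp_le_exp.2 ?_
    calc (n : ℝ) * (κ * k) = (n * κ) * k := by ring
      _ ≤ t0 * k := mul_le_mul_of_nonneg_right hnκ hk
      _ ≤ _ := hkt
  have h7 : f 0 0 0 + n * (κ * η') ≤ f 0 0 0 + t0 * η' := by
    have : (n : ℝ) * (κ * η') = (n * κ) * η' := by ring
    rw [this]
    have := mul_le_mul_of_nonneg_right hnκ hη'
    linarith
  have h8 : 0 ≤ f 0 0 0 + n * (κ * η') := by
    have := hnn 0 0 0
    positivity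
  calc _ ≤ _ := h4
    _ ≤ _ := h3
    _ ≤ _ := h1
    _ ≤ Real.exp (1 / 16) * (f 0 0 0 + n * (κ * η')) := mul_le_mul_of_nonneg_right h5 h8
    _ ≤ _ := mul_le_mul_of_nonneg_left h7 (Real.exp_pos _).le

end KD.II
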