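import Pool.Agent.Helper32.KD2.Defs

/-! KD Part II: small general facts (sorry-free) -/

namespace KD.II

open Finset MeasureTheory

theorem kw_nonneg {d : ℕ} {s : ℝ} (w : Vd d) : 0 ≤ kw d s w := Real.rpow_nonneg (norm_nonneg _) _

theorem kw_pos {d : ℕ} {s : ℝ} {w : Vd d} (hw : 0 < ‖w‖) : 0 < kw d s w := Real.rpow_pos_of_pos hw _

theorem kw_neg {d : ℕ} {s : ℝ} (w : Vd d) : kw d s (-w) = kw d s w := by
  unfold kw; rw [norm_neg]

theorem kw_smul {d : ℕ} {s : ℝ} {c : ℝ} (hc : 0 < c) (w : Vd d) :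
    kw d s (c • w) = c ^ (-((d : ℝ) + 2 * s)) * kw d s w := by
  unfold kw
  rw [norm_smul, Real.norm_of_nonneg hc.le, Real.mul_rpow hc.le (norm_nonneg _)]

@[fun_prop]
theorem kw_meas {d : ℕ} {s : ℝ} : Measurable (kw d s) := by
  unfold kw
  exact measurable_norm.pow_const _

theorem bal_meas {d : ℕ} (h : ℝ) : MeasurableSet (bal d h) :=
  measurableSet_lt measurable_norm measurable_const

theorem far_meas {d : ℕ} (h : ℝ) : MeasurableSet (far d h) :=
  measurableSet_le measurable_const measurable_norm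

theorem ann_meas {d : ℕ} (h ρ : ℝ) : MeasurableSet (ann d h ρ) :=
  (far_meas h).inter (bal_meas ρ)

theorem hh_pos (K : ℕ) : 0 < hh K := by unfold hh; positivity

theorem kk_pos {s ε : ℝ} (hε : 0 < ε) (K : ℕ) : 0 < kk s ε K :=
  mul_pos hε (Real.rpow_pos_of_pos (hh_pos K) _)

theorem hh_jump (K : ℕ) : hh K * 2 ^ (K + 3 + 1) = 1 / 16 := by
  unfold hh
  rw [show K + 3 + 1 = K + 4 from rfl, pow_add, pow_add, div_pow, one_pow]
  field_simp
  ring

end KD.II
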