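import Pool.Agent.Helper37.KD.Class
import Pool.Agent.Helper37.KD.Defs

/-! KD project (MP_019250_an), Part II: definitions.  Paper proof: /team-store/KD_part2.md,
hints: /team-store/KD2_hints.md -/

namespace KD.II

open Finset MeasureTheory

/-- the kernel weight `‖w‖^{-(d+2s)}` -/
noncomputable def kw (d : ℕ) (s : ℝ) (w : Vd d) : ℝ := ‖w‖ ^ (-((d : ℝ) + 2 * s))

/-- the open ball, the annulus and the outer region (sup norm) -/
def bal (d : ℕ) (h : ℝ) : Set (Vd d) := {w | ‖w‖ < h}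
def ann (d : ℕ) (h ρ : ℝ) : Set (Vd d) := {w | h ≤ ‖w‖ ∧ ‖w‖ < ρ}
def far (d : ℕ) (ρ : ℝ) : Set (Vd d) := {w | ρ ≤ ‖w‖}

/-! ### rounding, cells, index set -/

/-- rounding towards 0 -/
noncomputable def trz (x : ℝ) : ℤ := if 0 ≤ x then ⌊x⌋ else ⌈x⌉
noncomputable def trv {d : ℕ} (w : Vd d) : Fin d → ℤ := fun i => trz (w i)

/-- the scaled cell `2^{-J} cell(l)` -/
def cel (d J : ℕ) (l : Fin d → ℤ) : Set (Vd d) := {w | trv ((2 : ℝ) ^ J • w) = l}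

/-- index set of the jump system: integer vectors `l` with `2^J ≤ |l|_∞ < 2^{J+1}` -/
noncomputable def ThF (d J : ℕ) : Finset (Fin d → ℤ) :=
  (Fintype.piFinset (fun _ => Finset.Ioo (-(2 : ℤ) ^ (J + 1)) ((2 : ℤ) ^ (J + 1)))).filter
    (fun l => ∃ i, (2 : ℤ) ^ J ≤ |l i|)

/-- the index type of the jump system -/
abbrev Th (d J : ℕ) : Type := {l : Fin d → ℤ // l ∈ ThF d J}

/-- integer jump of the index `l` at scale `j ≤ J` -/
def ijmp (J j : ℕ) {d : ℕ} (l : Fin d → ℤ) : Fin d → ℤ := fun i => (l i).tdiv (2 ^ (J - j))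

/-- real jump `h * ijmp` -/
noncomputable def rjmp (h : ℝ) (J j : ℕ) {d : ℕ} (l : Fin d → ℤ) : Vd d :=
  fun i => h * ((ijmp J j l i : ℤ) : ℝ)

/-- rounding of a real vector to the lattice `h ℤ^d`, towards 0 -/
noncomputable def rtr (h : ℝ) {d : ℕ} (w : Vd d) : Vd d := fun i => h * ((trz (w i / h) : ℤ) : ℝ)

/-- mass of a cell -/
noncomputable def mass (d : ℕ) (s : ℝ) (J : ℕ) (l : Fin d → ℤ) : ℝ := ∫ w in cel d J l, kw d s w

/-- averaged coefficient of `b` at scale `j` over the cell `l` -/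
noncomputable def acf {d : ℕ} (s : ℝ) (b : Vd d → ℝ) (h : ℝ) (J j : ℕ) (l : Fin d → ℤ) : ℝ :=
  (∫ w in cel d J l, b ((h * 2 ^ j) • w) * kw d s w) / mass d s J l

/-- one fixed coefficient function `b = a t x v` -/
structure Adm {d : ℕ} (lam Lam : ℝ) (b : Vd d → ℝ) : Prop where
  meas : Measurable b
  even : ∀ w, b (-w) = b w
  lo : ∀ w, lam ≤ b w
  hi : ∀ w, b w ≤ Lam

/-! ### consequences of classical regularity on `Q1` -/

structure Loc {d : ℕ} (s η : ℝ) (a : ℝ → Vd d → Vd d → Vd d → ℝ) (f : ℝ → Vd d → Vd d → ℝ)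
    (G : ℝ → Vd d → Vd d → ℝ) (Cf : ℝ) : Prop where
  Cf0 : 0 ≤ Cf
  meas : ∀ t x, Measurable (f t x)
  bdd : ∀ t x v, |f t x v| ≤ Cf
  lip : ∀ t x t' x' v, (t, x, v) ∈ Q1 d → (t', x', v) ∈ Q1 d →
    |f t x v - f t' x' v| ≤ Cf * (|t - t'| + ‖x - x'‖)
  tr : ∀ e : ℝ, 0 < e → ∃ b : ℝ, 0 < b ∧ ∀ κ t x v, 0 < κ → κ ≤ b → (t, x, v) ∈ Q1 d →
    (t - κ, x - κ • v, v) ∈ Q1 d → f (t - κ) (x - κ • v) v ≤ f t x v - κ * (G t x v - e)
  sd : ∀ t x v w w', -1 ≤ t → t ≤ 0 → ‖x‖ ≤ 1 → ‖v‖ + ‖w‖ ≤ 1 → ‖w'‖ ≤ ‖w‖ →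
    |(f t x (v + w') + f t x (v - w')) - (f t x (v + w) + f t x (v - w))| ≤
      Cf * ‖w - w'‖ * ‖w‖
  uc : ∀ e : ℝ, 0 < e → ∃ b : ℝ, 0 < b ∧ ∀ t x v t' x' v', (t, x, v) ∈ Q1 d →
    (t', x', v') ∈ Q1 d → |t - t'| ≤ b → ‖x - x'‖ ≤ b → ‖v - v'‖ ≤ b →
    |f t x v - f t' x' v'| ≤ e
  eq : ∀ t x v, (t, x, v) ∈ Q1 d → Lop s a f t x v - η ≤ G t x v

/-! ### scales: `h = 2^{-K-8}`, `κ = ε h^{2s}`, `J = K+3`, largest jump `< 2^{J+1} h = 1/16` -/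

noncomputable def hh (K : ℕ) : ℝ := (1 / 2 : ℝ) ^ (K + 8)
noncomputable def kk (s ε : ℝ) (K : ℕ) : ℝ := ε * hh K ^ (2 * s)

/-- rate of the long jumps -/
noncomputable def k0 (d : ℕ) (s Lam : ℝ) : ℝ := Lam * ∫ w in far d (1 / 16), kw d s w

/-! ### the torus, the window and the samples of a function -/

/-- real representative of a torus vector -/
noncomputable def rl {d N : ℕ} (x : V d N) : Vd d := fun i => ((x i).valMinAbs : ℝ)

/-- real coordinates of the torus point `z` -/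
noncomputable def px {d N : ℕ} (κ h : ℝ) (z : GG d N) : Vd d := -((κ * h) • rl z.1)
noncomputable def pv {d N : ℕ} (h : ℝ) (z : GG d N) : Vd d := h • rl z.2

/-- sample of `f` at step `n` -/
noncomputable def smp {d N : ℕ} (κ h : ℝ) (f : ℝ → Vd d → Vd d → ℝ) (n : ℕ) (z : GG d N) : ℝ :=
  f (-(n * κ)) (px κ h z) (pv h z)

/-- the window -/
def win {d N : ℕ} [NeZero N] (κ h : ℝ) : Set (GG d N) :=
  {z | ‖px κ h z‖ ≤ 1 / 4 ∧ ‖pv h z‖ ≤ 1 / 4}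

open Classical in
/-- coefficients of the chain -/
noncomputable def cof {d N : ℕ} [NeZero N] (s lam κ h : ℝ) (J : ℕ)
    (a : ℝ → Vd d → Vd d → Vd d → ℝ) (n j : ℕ) (θ : Th d J) (z : GG d N) : ℝ :=
  if z ∈ win κ h then acf s (a (-(n * κ)) (px κ h z) (pv h z)) h J j θ.1 else lam

/-! ### generator and killed chain -/

section
variable {d N J : ℕ} [NeZero N] {c0 C0 : ℝ} {Θ : Type} [Fintype Θ] (S : JSys d N J c0 C0 Θ)

/-- one step of the chain acting on functions -/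
noncomputable def gen (s ε : ℝ) (a : ℕ → Θ → GG d N → ℝ) (g : GG d N → ℝ) (z : GG d N) : ℝ :=
  g (Ap 1 z) + ε * ∑ j ∈ range (J + 1), ∑ θ, S.wt s j θ * a j θ z *
    (g (Ap 1 (z + S.jv j θ)) - g (Ap 1 z))

open Classical in
/-- the chain killed outside `W` -/
noncomputable def kil (s ε : ℝ) (a : ℕ → ℕ → Θ → GG d N → ℝ) (W : Set (GG d N)) :
    ℕ → GG d N → ℝ
  | 0 => Pi.single 0 1
  | n + 1 => S.step s ε (a n) (fun z => if z ∈ W then kil s ε a W n z else 0)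

open Classical in
/-- mass (of `μ` weighted by `g`) in `W` -/
noncomputable def inW (W : Set (GG d N)) (μ g : GG d N → ℝ) : ℝ :=
  ∑ z, if z ∈ W then μ z * g z else 0

/-- total jump rate -/
noncomputable def rate (s : ℝ) : ℝ := ∑ j ∈ range (J + 1), ∑ θ, S.wt s j θ

end

/-- left-hand side of the one step inequality at the real point `(t,x,v)` -/
noncomputable def oneL {d : ℕ} (s ε κ h : ℝ) (J : ℕ) (b : Vd d → ℝ) (f : ℝ → Vd d → Vd d → ℝ)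
    (t : ℝ) (x v : Vd d) : ℝ :=
  f (t - κ) (x - κ • v) v + ε * ∑ j ∈ range (J + 1), ∑ θ : Th d J,
    mass d s J θ.1 / tim s j * acf s b h J j θ.1 *
      (f (t - κ) (x - κ • (v + rjmp h J j θ.1)) (v + rjmp h J j θ.1) - f (t - κ) (x - κ • v) v)

/-- exit function `Ψ` -/
noncomputable def Psi {d N : ℕ} (κ h : ℝ) (z : GG d N) : ℝ :=
  16 * ∑ i, (pv h z i) ^ 2 + 4 * ∑ i, |px κ h z i|

end KD.II
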